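import Pool.Agent.Helper64.XJ.Nat

/-!
# Naturality of `Pp` (type 2) and the shapes of `Pieces`
-/

set_option autoImplicit false

namespace Pool.Agent.Helper45.H2

open Pool.Agent.Helper24.H2
open Pool.Agent.Helper28.HN (I Un En cr aff)

section

variable {m : ℕ} {S S' : Type*} [CommRing S] [CommRing S'] (f : S →+* S') (c : Ix m → S)
  (x y x' y' ξ : I m → S) (u : Fin (m + 1) → S) (z : S) (k : Un m → S)

theorem map_aff (i : I m) : f (aff u i) = aff (fun i => f (u i)) i :=
  congrFun (Helper64.XJ.map_aff f u) i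

theorem map_qa : f (qa c x ξ) = qa (fun e => f (c e)) (fun i => f (x i)) (fun i => f (ξ i)) :=
  Helper64.XJ.map_qa f c x ξ

theorem map_xz (i : I m) : f (xz c u z i) = xz (fun e => f (c e)) (fun i => f (u i)) (f z) i :=
  congrFun (Helper64.XJ.map_xz f c u z) i

theorem map_Eqn (i : En m) : f (Eqn c k i) = Eqn (fun e => f (c e)) (fun a => f (k a)) i :=
  Helper64.XJ.map_Eqn f c k i

theorem map_Vm : f (Vm c k).det = (Vm (fun e => f (c e)) (fun a => f (k a))).det := by
  rw [RingHom.map_det]
  congr 1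
  ext a i
  have h : ∀ y : I m → S, f (vh c y i) = vh (fun e => f (c e)) (fun i => f (y i)) i :=
    fun y => congrFun (Helper64.XJ.map_vh f c y) i
  simp only [RingHom.mapMatrix_apply, Matrix.map_apply, Vm, h, Helper64.XJ.map_yh,
    Helper64.XJ.map_aff]

theorem map_Pp : f (Pp c k) = Pp (fun e => f (c e)) (fun a => f (k a)) := by
  have h1 : ∀ z : S, f ((psP c (aff fun i => k (.inl i))).derivative.eval z) =
      (psP (fun e => f (c e)) (aff fun i => f (k (.inl i)))).derivative.eval (f z) := by
    intro z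
    rw [← Polynomial.eval_map_apply, ← Polynomial.derivative_map, Helper64.XJ.map_psP,
      Helper64.XJ.map_aff]
  simp only [Pp, map_mul, map_prod, apply_ite f, map_one, map_sub, RingHom.map_det,
    Helper64.XJ.map_Mx, Helper64.XJ.map_Nx, Helper64.XJ.map_aff, Helper64.XJ.map_yh,
    Helper64.XJ.map_kah, Helper64.XJ.map_th, Helper64.XJ.map_qh, Helper64.XJ.map_xz, h1]
  congr 1
  rw [← RingHom.map_det]
  exact map_Vm f c k

end

end Pool.Agent.Helper45.H2
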